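import Mathlib
import Pool.Agent.Lib.helper13.Lag

set_option autoImplicit false

namespace Pool.Agent.Results.MP_efc620_co.Counter

open Polynomial Finset

/-- The number of cycles of a permutation, fixed points included: the number of its orbits. -/
def numCycles {n : ℕ} (σ : Equiv.Perm (Fin n)) : ℕ :=
  (univ.image fun v => univ.filter fun w => σ.SameCycle v w).card

/-- The graphical cycle polynomial of the first kind. -/
noncomputable def cyclePoly {n : ℕ} (G : SimpleGraph (Fin n)) [DecidableRel G.Adj] : ℝ[X] :=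
  ∑ σ ∈ univ.filter (fun σ : Equiv.Perm (Fin n) => ∀ v, σ v ≠ v → G.Adj v (σ v)),
    X ^ numCycles σ

/-- Every cycle of length at least four has a chord. -/
def Chordal {V : Type} (G : SimpleGraph V) : Prop :=
  ∀ (k : ℕ) (c : Fin (k + 4) → V), Function.Injective c → (∀ i, G.Adj (c i) (c (i + 1))) →
    ∃ i j, j ≠ i + 1 ∧ i ≠ j + 1 ∧ G.Adj (c i) (c j)

def adj (i j : Fin 5) : Bool :=
  i != j && (i == 0 || j == 0 || i.val + 1 == j.val || j.val + 1 == i.val)

def gem : SimpleGraph (Fin 5) where
  Adj i j := adj i j = true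
  symm := ⟨by decide⟩
  loopless := ⟨by decide⟩

instance : DecidableRel gem.Adj := fun i j => inferInstanceAs (Decidable (adj i j = true))

theorem chordal : Chordal gem := by
  intro k c hc h
  have hk := Fintype.card_le_of_injective c hc
  simp only [Fintype.card_fin] at hk
  obtain rfl | rfl : k = 0 ∨ k = 1 := by omega
  · have key : ∀ a b d e : Fin 5, a ≠ d → b ≠ e → adj a b = true → adj b d = true →
        adj d e = true → adj e a = true → adj a d = true ∨ adj b e = true := by decide +kernel
    rcases key (c 0) (c 1) (c 2) (c 3) (hc.ne (by decide)) (hc.ne (by decide))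
      (h 0) (h 1) (h 2) (h 3) with h1 | h1
    · exact ⟨0, 2, by decide, by decide, h1⟩
    · exact ⟨1, 3, by decide, by decide, h1⟩
  · have key : ∀ a b d e f : Fin 5, a ≠ d → b ≠ e → a ≠ e → b ≠ f → d ≠ f → adj a b = true →
        adj b d = true → adj d e = true → adj e f = true → adj f a = true →
        adj a d = true ∨ adj b e = true ∨ adj b f = true := by decide +kernel
    rcases key (c 0) (c 1) (c 2) (c 3) (c 4) (hc.ne (by decide)) (hc.ne (by decide))
      (hc.ne (by decide)) (hc.ne (by decide)) (hc.ne (by decide))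
      (h 0) (h 1) (h 2) (h 3) (h 4) with h1 | h1 | h1
    · exact ⟨0, 2, by decide, by decide, h1⟩
    · exact ⟨1, 3, by decide, by decide, h1⟩
    · exact ⟨1, 4, by decide, by decide, h1⟩

theorem counts : (univ.filter (fun σ : Equiv.Perm (Fin 5) => ∀ v, σ v ≠ v →
    gem.Adj v (σ v))).val.map numCycles = Multiset.replicate 2 1 + Multiset.replicate 8 2 +
    Multiset.replicate 13 3 + Multiset.replicate 7 4 + Multiset.replicate 1 5 := by
  decide +kernel

theorem poly_eq : cyclePoly gem = 2 * X + 8 * X ^ 2 + 13 * X ^ 3 + 7 * X ^ 4 + X ^ 5 := by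
  have : cyclePoly gem = (((univ.filter (fun σ : Equiv.Perm (Fin 5) => ∀ v, σ v ≠ v →
    gem.Adj v (σ v))).val.map numCycles).map fun k => (X : ℝ[X]) ^ k).sum := by
    rw [Multiset.map_map]; rfl
  rw [this, counts]
  simp only [Multiset.map_add, Multiset.sum_add, Multiset.map_replicate, Multiset.sum_replicate,
    nsmul_eq_mul]
  push_cast; ring

theorem result : ∃ (n : ℕ) (G : SimpleGraph (Fin n)) (_ : DecidableRel G.Adj), 1 ≤ n ∧
    Chordal G ∧ ∃ z : ℂ, aeval z (cyclePoly G) = 0 ∧ z.im ≠ 0 := by
  refine ⟨5, gem, inferInstance, by norm_num, chordal, ?_⟩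
  apply H13Lag.exists_nonreal _ (-1 / 2)
  rw [poly_eq]
  simp [derivative_mul]
  norm_num

end Pool.Agent.Results.MP_efc620_co.Counter
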